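import Pool.Agent.Helper35_WHE.Step

/-!
# Iterating the elementary moves
-/

namespace Pool.Agent.Helper35_WH

open FreeGroup

set_option linter.unusedSectionVars false

namespace EX

variable {L B : Type} [DecidableEq L] [DecidableEq B]

/-- the result of the iteration -/
structure Ext (W : List (Ltr L B)) (ps : List (Piece L B))
    (f : FreeGroup (L ⊕ B) ≃* FreeGroup (L ⊕ B)) : Prop where
  sides : ∀ j, f (of (Sum.inr j)) = of (Sum.inr j)
  unused : ∀ k, cnt W (Sum.inl k) = 0 → f (of (Sum.inl k)) = of (Sum.inl k)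
  im : f (mk W) = mk (wordOf ps)
  cnteq : ∀ x, cnt (wordOf ps) x = cnt W x
  len : (wordOf ps).length = W.length
  pre : ∀ V V', W = V ++ V' → (f (mk V)).norm ≤ 4 * ps.length
  inv : ∀ k, ∃ V : List (Ltr L B), V.length ≤ 2 * W.length + 1 ∧
    f.symm (of (Sum.inl k)) = mk V ∧ ∀ x ∈ V, cnt W x.1 ≠ 0 ∨ x.1 = Sum.inl k

theorem ext_nil : Ext ([] : List (Ltr L B)) [] (MulEquiv.refl _) where
  sides _ := rfl
  unused _ _ := rfl
  im := rfl
  cnteq _ := rfl
  len := rfl
  pre V V' h := by
    have : V = [] := by
      have := congrArg List.length h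
      simp at this
      exact List.length_eq_zero_iff.1 (by omega)
    subst this
    show (mk []).norm ≤ _
    exact norm_mk_le' _
  inv k := ⟨[(Sum.inl k, true)], by simp, rfl, by simp⟩

theorem ext_cons {W R : List (Ltr L B)} {P : Piece L B}
    {θ : FreeGroup (L ⊕ B) ≃* FreeGroup (L ⊕ B)} (hs : Step W R P θ) {ps : List (Piece L B)}
    {f : FreeGroup (L ⊕ B) ≃* FreeGroup (L ⊕ B)} (hf : Ext R ps f) :
    Ext W (P :: ps) (θ.trans f) := by
  have ha : ∀ x, (θ.trans f) x = f (θ x) := fun _ => rfl
  have hb : ∀ x, (θ.trans f).symm x = θ.symm (f.symm x) := fun _ => rfl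
  have hfix : ∀ x : L ⊕ B, (∀ k, x = Sum.inl k → cnt P.word x ≠ 0) → f (of x) = of x := by
    intro x hx
    rcases x with k | j
    · exact hf.unused k (hs.dis k (hx k rfl))
    · exact hf.sides j
  have hfixs : ∀ x : L ⊕ B, f (of x) = of x → f.symm (of x) = of x := by
    intro x hx
    rw [MulEquiv.symm_apply_eq, hx]
  have hcw : wordOf (P :: ps) = P.word ++ wordOf ps := by simp [wordOf]
  refine ⟨?_, ?_, ?_, ?_, ?_, ?_, ?_⟩
  · intro j
    rw [ha, hs.fix (Sum.inr j) (by simp), hf.sides]
  · intro k hk
    have h1 := hs.cnteq (Sum.inl k)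
    rw [ha, hs.fix (Sum.inl k) (by intro k' hk'; omega), hf.unused k (by omega)]
  · rw [ha, hs.im, _root_.map_mul, hf.im, hcw, mk_app]
    congr 1
    apply fix_mk
    intro x hx
    apply hfix
    intro k _
    exact cnt_ne_zero.2 ⟨x, hx, rfl⟩
  · intro x
    rw [hcw, cnt_append, hf.cnteq, hs.cnteq]
  · rw [hcw, List.length_append, hf.len, hs.len]
  · intro V V' hV
    obtain ⟨G, Rp, Rs, hR, hG, hG2, h3⟩ := hs.pre V V' hV
    rw [List.nil_append] at h3
    rw [ha, h3, _root_.map_mul, fix_mk f G fun x hx => hfix _ fun k hk => hG2 x hx k hk]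
    refine (FreeGroup.norm_mul_le _ _).trans ?_
    have h4 := hf.pre Rp Rs hR
    have h5 : (mk G).norm ≤ 4 := (norm_mk_le' G).trans hG
    simp only [List.length_cons]
    omega
  · intro k
    by_cases hP : cnt P.word (Sum.inl k) ≠ 0
    · rw [hb, hfixs _ (hfix _ fun _ _ => hP)]
      obtain ⟨V, h1, h2, h3⟩ := hs.inv k hP
      exact ⟨V, h1, h2, fun x hx => Or.inl (h3 x hx)⟩
    · push Not at hP
      obtain ⟨V, h1, h2, h3⟩ := hf.inv k
      refine ⟨V, ?_, ?_, ?_⟩
      · have := hs.len
        omega
      · rw [hb, h2]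
        apply fix_mk
        intro x hx
        apply hs.fix'
        intro k' hk'
        rcases h3 x hx with h4 | h4
        · by_contra h5
          rw [hk'] at h4 h5
          exact h4 (hs.dis k' h5)
        · rw [h4, hP]
      · intro x hx
        rcases h3 x hx with h4 | h4
        · left
          rw [hs.cnteq]
          omega
        · right; exact h4

theorem word_len (P : Piece L B) : 1 ≤ P.word.length := by
  cases P <;> simp [Piece.word]

theorem wordOf_len (ps : List (Piece L B)) : ps.length ≤ (wordOf ps).length := by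
  induction ps with
  | nil => simp
  | cons P ps ih =>
    have : wordOf (P :: ps) = P.word ++ wordOf ps := by simp [wordOf]
    rw [this, List.length_append, List.length_cons]
    have := word_len P
    omega

theorem ext_eqw {W : List (Ltr L B)} {ps : List (Piece L B)}
    {f : FreeGroup (L ⊕ B) ≃* FreeGroup (L ⊕ B)} (hf : Ext W ps f) :
    Eqw (8 * W.length + 1) W (wordOf ps) := by
  have hps : ps.length ≤ W.length := by rw [← hf.len]; exact wordOf_len ps
  refine ⟨f, hf.sides, hf.im, ?_, ?_⟩
  · intro k
    by_cases hk : cnt W (Sum.inl k) = 0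
    · rw [hf.unused k hk, norm_of]
      omega
    · obtain ⟨x, hx, hxk⟩ := cnt_ne_zero.1 hk
      obtain ⟨V, V', hV⟩ := List.append_of_mem hx
      have h1 := hf.pre V _ hV
      have h2 := hf.pre (V ++ [x]) V' (by rw [hV]; simp)
      have h3 : f (mk [x]) = (f (mk V))⁻¹ * f (mk (V ++ [x])) := by
        rw [mk_app, _root_.map_mul]; group
      have h4 : (f (mk [x])).norm ≤ 8 * W.length := by
        rw [h3]
        refine (FreeGroup.norm_mul_le _ _).trans ?_
        rw [FreeGroup.norm_inv_eq]
        omega
      obtain ⟨x, b⟩ := x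
      simp only at hxk
      subst hxk
      cases b
      · have h5 : mk [((Sum.inl k : L ⊕ B), false)] = (of (Sum.inl k) : FreeGroup (L ⊕ B))⁻¹ := by
          rw [of, FreeGroup.inv_mk]; rfl
        rw [h5, _root_.map_inv, FreeGroup.norm_inv_eq] at h4
        omega
      · have h5 : mk [((Sum.inl k : L ⊕ B), true)] = (of (Sum.inl k) : FreeGroup (L ⊕ B)) := rfl
        rw [h5] at h4
        omega
  · intro k
    obtain ⟨V, h1, h2, h3⟩ := hf.inv k
    rw [h2]
    refine (norm_mk_le' V).trans ?_
    omega

theorem stepC' (k : L) (u u' : List (Ltr L B))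
    (h : cnt (u ++ ((Piece.sq k : Piece L B).word ++ u')) (Sum.inl k) = 2) :
    ∃ θ, Step (u ++ ((Piece.sq k : Piece L B).word ++ u')) (u ++ u') (.sq k) θ := by
  have := stepC k true u [] u' (by simpa [Piece.word] using h)
  simpa [Piece.word, invRev] using this

theorem stepP (P : Piece L B) (u u' : List (Ltr L B))
    (h : ∀ k, cnt (u ++ (P.word ++ u')) (Sum.inl k) ≤ 2) :
    ∃ θ, Step (u ++ (P.word ++ u')) (u ++ u') P θ := by
  cases P with
  | sq k =>
    apply stepC'
    have h1 := h k
    simp only [cnt_append, Piece.word, cnt_cons, if_true] at h1 ⊢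
    omega
  | bd t j s =>
    have := stepB t true j s u u' (by
      have h1 := h t
      simp only [cnt_append, Piece.word, cnt_cons, cnt_nil, if_true, List.cons_append,
        List.nil_append, Bool.not_true] at h1 ⊢
      omega)
    simpa [Piece.word] using this
  | com k l =>
    have hkl : k ≠ l := by
      rintro rfl
      have h1 := h k
      simp only [cnt_append, Piece.word, cnt_cons, cnt_nil, if_true] at h1
      omega
    have := stepH k l hkl true true u [] [] [] u' (by
      have h1 := h k
      simp only [cnt_append, Piece.word, cnt_cons, cnt_nil, if_true, List.cons_append,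
        List.nil_append, Bool.not_true] at h1 ⊢
      omega) (by
      have h1 := h l
      simp only [cnt_append, Piece.word, cnt_cons, cnt_nil, if_true, List.cons_append,
        List.nil_append, Bool.not_true] at h1 ⊢
      omega)
    simpa [Piece.word] using this

theorem perm_ext : ∀ (ps' ps : List (Piece L B)), (∀ k, cnt (wordOf ps) (Sum.inl k) ≤ 2) →
    ps.Perm ps' → ∃ f, Ext (wordOf ps) ps' f := by
  intro ps'
  induction ps' with
  | nil =>
    intro ps _ hp
    rw [List.perm_nil] at hp
    subst hp
    exact ⟨_, ext_nil⟩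
  | cons P ps' ih =>
    intro ps h hp
    have hP : P ∈ ps := hp.symm.subset List.mem_cons_self
    obtain ⟨l₁, l₂, hl⟩ := List.append_of_mem hP
    subst hl
    have h1 : (l₁ ++ l₂).Perm ps' := by
      have := List.perm_middle.symm.trans hp
      exact List.Perm.cons_inv this
    have hw : wordOf (l₁ ++ P :: l₂) = wordOf l₁ ++ (P.word ++ wordOf l₂) := by simp [wordOf]
    have hw' : wordOf (l₁ ++ l₂) = wordOf l₁ ++ wordOf l₂ := by simp [wordOf]
    rw [hw] at h ⊢
    obtain ⟨θ, hθ⟩ := stepP P (wordOf l₁) (wordOf l₂) h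
    obtain ⟨f, hf⟩ := ih (l₁ ++ l₂) (by
      intro k
      have := h k
      rw [hw']
      simp only [cnt_append] at this ⊢
      omega) h1
    rw [hw'] at hf
    exact ⟨_, ext_cons hθ hf⟩

end EX

/-- E2. Reordering of pieces. -/
theorem perm : PermStatement := by
  intro L B _ _ _ _ ps ps' h _ hp
  obtain ⟨f, hf⟩ := EX.perm_ext ps' ps h hp
  exact EX.ext_eqw hf

end Pool.Agent.Helper35_WH
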