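import Pool.Agent.Helper35_WHE.Ext

/-!
# Extraction of pieces from a quadratic word
-/

namespace Pool.Agent.Helper35_WH

open FreeGroup

set_option linter.unusedSectionVars false

namespace EX

variable {L B : Type} [DecidableEq L] [DecidableEq B]

/-- the word `W` is read from the colour `p` to the colour `q` -/
def CP {α : Type} (g : Ltr L B → α) : α → List (Ltr L B) → α → Prop
  | p, [], q => p = q
  | p, x :: W, q => g x = p ∧ CP g (g (inv x)) W q

theorem cp_append {α : Type} (g : Ltr L B → α) (U V : List (Ltr L B)) (p q : α) :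
    CP g p (U ++ V) q ↔ ∃ r, CP g p U r ∧ CP g r V q := by
  induction U generalizing p with
  | nil => simp [CP]
  | cons x U ih =>
    simp only [List.cons_append, CP, ih]
    constructor
    · rintro ⟨h1, r, h2, h3⟩; exact ⟨r, ⟨h1, h2⟩, h3⟩
    · rintro ⟨r, ⟨h1, h2⟩, h3⟩; exact ⟨h1, r, h2, h3⟩

theorem cp_invRev {α : Type} (g : Ltr L B → α) (U : List (Ltr L B)) (p q : α) :
    CP g p (invRev U) q ↔ CP g q U p := by
  induction U generalizing p q with
  | nil => simp [CP, invRev, eq_comm]
  | cons x U ih =>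
    have : invRev (x :: U) = invRev U ++ [inv x] := by simp [invRev, inv]
    rw [this, cp_append]
    simp only [CP, ih, inv_inv]
    constructor
    · rintro ⟨r, h1, h2, h3⟩; exact ⟨h3, h2 ▸ h1⟩
    · rintro ⟨h1, h2⟩; exact ⟨_, h2, rfl, h1⟩

theorem cp_congr {α : Type} {g g' : Ltr L B → α} {U : List (Ltr L B)}
    (h : ∀ x, cnt U x.1 ≠ 0 → g x = g' x) (p q : α) : CP g p U q ↔ CP g' p U q := by
  induction U generalizing p with
  | nil => simp [CP]
  | cons x U ih =>
    have h1 : g x = g' x := h x (by rw [cnt_cons, if_pos rfl]; omega)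
    have h2 : g (inv x) = g' (inv x) := h (inv x) (by
      rw [cnt_cons, if_pos (by simp [inv])]; omega)
    simp only [CP, h1, h2]
    rw [ih fun y hy => h y (by rw [cnt_cons]; omega)]

theorem compat_of_cp {α : Type} {g : Ltr L B → α} {U : List (Ltr L B)} {p q : α}
    (h : CP g p U q) : Compat g U ∧ (∀ x ∈ U.head?, g x = p) ∧
      ∀ x ∈ U.getLast?, g (inv x) = q := by
  induction U generalizing p with
  | nil => simp [Compat]
  | cons x U ih =>
    obtain ⟨h1, h2⟩ := h
    obtain ⟨h3, h4, h5⟩ := ih h2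
    refine ⟨?_, by simpa using h1, ?_⟩
    · unfold Compat at h3 ⊢
      rw [List.isChain_cons]
      exact ⟨fun y hy => (h4 y hy).symm, h3⟩
    · intro y hy
      cases U with
      | nil =>
        simp only [List.getLast?_singleton, Option.mem_def, Option.some.injEq] at hy
        subst hy
        exact h2
      | cons z U =>
        rw [List.getLast?_cons_cons] at hy
        exact h5 y hy

theorem cp_of_compat {α : Type} {g : Ltr L B → α} {U : List (Ltr L B)} {p q : α}
    (h1 : Compat g U) (h2 : ∀ x ∈ U.head?, g x = p) (h3 : ∀ x ∈ U.getLast?, g (inv x) = q)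
    (h4 : U ≠ []) : CP g p U q := by
  induction U generalizing p with
  | nil => exact absurd rfl h4
  | cons x U ih =>
    refine ⟨h2 x (by simp), ?_⟩
    cases U with
    | nil => exact h3 x (by simp)
    | cons y U =>
      unfold Compat at h1
      rw [List.isChain_cons_cons] at h1
      refine ih h1.2 (by simpa using h1.1.symm) ?_ (by simp)
      intro z hz
      exact h3 z (by rw [List.getLast?_cons_cons]; exact hz)

/-- the vertex condition in terms of `CP` -/
structure VC' (W : List (Ltr L B)) (col : Ltr L B → Option B) : Prop where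
  side : ∀ j b, col (Sum.inr j, b) = some j
  path : CP col none W none
  used : ∀ x j, cnt W x.1 ≠ 0 → col x = some j → cnt W (Sum.inr j) ≠ 0
  univ : ∀ (g : Ltr L B → Bool) (p q : Bool), CP g p W q → ∀ x y, cnt W x.1 ≠ 0 → cnt W y.1 ≠ 0 →
    col x = col y → g x = g y

theorem vc'_of_vc {W : List (Ltr L B)} {col : Ltr L B → Option B} (h : VC W col) : VC' W col where
  side := h.side
  path := by
    by_cases hW : W = []
    · subst hW; rfl
    · exact cp_of_compat h.chain h.head h.last hW
  used := h.used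
  univ g _ _ hg := h.univ g (compat_of_cp hg).1

/-- `S W R P` : a step together with the preservation of the vertex condition -/
def Good (col : Ltr L B → Option B) (W : List (Ltr L B)) : Prop :=
  ∃ R P θ, Step W R P θ ∧ VC' R col

theorem goodC {col : Ltr L B → Option B} (k : L) (s : Bool) (u y u' : List (Ltr L B))
    (h : cnt (u ++ (Sum.inl k, s) :: (y ++ (Sum.inl k, s) :: u')) (Sum.inl k) = 2)
    (hv : VC' (u ++ (Sum.inl k, s) :: (y ++ (Sum.inl k, s) :: u')) col) :
    Good col (u ++ (Sum.inl k, s) :: (y ++ (Sum.inl k, s) :: u')) := by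
  obtain ⟨θ, hθ⟩ := stepC k s u y u' h
  have hR : cnt (u ++ (invRev y ++ u')) (Sum.inl k) = 0 :=
    hθ.dis k (by simp [Piece.word, cnt_cons])
  have hR' : cnt u (Sum.inl k) = 0 ∧ cnt y (Sum.inl k) = 0 ∧ cnt u' (Sum.inl k) = 0 := by
    simp only [cnt_append, cnt_invRev] at hR
    omega
  refine ⟨_, _, θ, hθ, hv.side, ?_, ?_, ?_⟩
  · have h1 := hv.path
    simp only [cp_append, CP] at h1 ⊢
    obtain ⟨p, h2, h3, q, h4, h5, h6⟩ := h1
    refine ⟨p, h2, col (inv (Sum.inl k, s)), ?_, h6⟩
    rw [cp_invRev]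
    rw [← h3, h5]; exact h4
  · intro x j hx hc
    have h1 := hv.used x j (by rw [hθ.cnteq]; omega) hc
    rw [hθ.cnteq] at h1
    have h2 : cnt (Piece.sq k : Piece L B).word (Sum.inr j) = 0 := by
      simp [Piece.word, cnt_cons, cnt_nil]
    omega
  · intro g p q hg x y' hx hy' hc
    simp only [cp_append] at hg
    obtain ⟨P₁, h1, Q₁, h2, h3⟩ := hg
    rw [cp_invRev] at h2
    set a : Ltr L B := (Sum.inl k, s) with ha
    let g' : Ltr L B → Bool := fun x => if x = a then P₁ else if x = inv a then Q₁ else g x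
    have hne : inv a ≠ a := inv_ne a
    have ga : g' a = P₁ := by simp [g']
    have ga' : g' (inv a) = Q₁ := by simp [g', hne]
    have gg : ∀ V : List (Ltr L B), cnt V (Sum.inl k) = 0 → ∀ x, cnt V x.1 ≠ 0 → g x = g' x := by
      intro V hV x hx
      have h5 : x ≠ a := by rintro rfl; exact hx hV
      have h6 : x ≠ inv a := by rintro rfl; exact hx hV
      simp [g', h5, h6]
    have key : CP g' p (u ++ a :: (y ++ a :: u')) q := by
      simp only [cp_append, CP, ga, ga']
      exact ⟨P₁, (cp_congr (gg u hR'.1) _ _).1 h1, rfl, P₁, (cp_congr (gg y hR'.2.1) _ _).1 h2, rfl,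
        (cp_congr (gg u' hR'.2.2) _ _).1 h3⟩
    have h7 := hv.univ g' p q key x y' (by rw [hθ.cnteq]; omega) (by rw [hθ.cnteq]; omega) hc
    rwa [← gg _ hR x hx, ← gg _ hR y' hy'] at h7

theorem goodB {col : Ltr L B → Option B} (k : L) (s : Bool) (j : B) (δ : Bool)
    (u u' : List (Ltr L B))
    (h : cnt (u ++ (Sum.inl k, s) :: (Sum.inr j, δ) :: (Sum.inl k, !s) :: u') (Sum.inl k) = 2)
    (hj : cnt (u ++ (Sum.inl k, s) :: (Sum.inr j, δ) :: (Sum.inl k, !s) :: u') (Sum.inr j) ≤ 1)
    (hv : VC' (u ++ (Sum.inl k, s) :: (Sum.inr j, δ) :: (Sum.inl k, !s) :: u') col) :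
    Good col (u ++ (Sum.inl k, s) :: (Sum.inr j, δ) :: (Sum.inl k, !s) :: u') := by
  obtain ⟨θ, hθ⟩ := stepB k s j δ u u' h
  have hR : cnt (u ++ u') (Sum.inl k) = 0 :=
    hθ.dis k (by simp [Piece.word, cnt_cons])
  have hR' : cnt u (Sum.inl k) = 0 ∧ cnt u' (Sum.inl k) = 0 := by
    simp only [cnt_append] at hR
    omega
  have hjR : cnt (u ++ u') (Sum.inr j) = 0 := by
    simp only [cnt_append, cnt_cons, if_true] at hj ⊢
    omega
  have hjR' : cnt u (Sum.inr j) = 0 ∧ cnt u' (Sum.inr j) = 0 := by
    simp only [cnt_append] at hjR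
    omega
  set a : Ltr L B := (Sum.inl k, s) with ha
  have hia : (Sum.inl k, !s) = inv a := rfl
  have hne : inv a ≠ a := inv_ne a
  -- extension of a colouring of R
  have ext : ∀ (g : Ltr L B → Bool) (p q c : Bool), CP g p (u ++ u') q → ∃ g' : Ltr L B → Bool,
      g' (inv a) = c ∧ (∀ b, g' (Sum.inr j, b) = c) ∧
      (∀ x, x.1 ≠ Sum.inl k → x.1 ≠ Sum.inr j → g' x = g x) ∧
      CP g' p (u ++ a :: (Sum.inr j, δ) :: inv a :: u') q := by
    intro g p q c hg
    rw [cp_append] at hg
    obtain ⟨P₁, h1, h2⟩ := hg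
    let g' : Ltr L B → Bool := fun x => if x = a then P₁ else if x = inv a then c else
      if x.1 = Sum.inr j then c else g x
    have ga : g' a = P₁ := by simp [g']
    have ga' : g' (inv a) = c := by simp [g', hne]
    have gj : ∀ b, g' (Sum.inr j, b) = c := by
      intro b
      have h5 : ((Sum.inr j, b) : Ltr L B) ≠ a := by simp [ha]
      have h6 : ((Sum.inr j, b) : Ltr L B) ≠ inv a := by simp [ha, inv]
      simp only [g']
      rw [if_neg h5, if_neg h6]
      simp
    have go : ∀ x, x.1 ≠ Sum.inl k → x.1 ≠ Sum.inr j → g' x = g x := by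
      intro x h3 h4
      have h5 : x ≠ a := by rintro rfl; exact h3 rfl
      have h6 : x ≠ inv a := by rintro rfl; exact h3 rfl
      simp only [g']
      rw [if_neg h5, if_neg h6, if_neg h4]
    have gg : ∀ V : List (Ltr L B), cnt V (Sum.inl k) = 0 → cnt V (Sum.inr j) = 0 →
        ∀ x, cnt V x.1 ≠ 0 → g x = g' x := by
      intro V hV hV' x hx
      exact (go x (by intro h; rw [h] at hx; exact hx hV) (by
        intro h; rw [h] at hx; exact hx hV')).symm
    refine ⟨g', ga', gj, go, ?_⟩
    rw [cp_append]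
    refine ⟨P₁, (cp_congr (gg u hR'.1 hjR'.1) _ _).1 h1, ga, ?_, ?_, ?_⟩
    · rw [ga', gj]
    · rw [ga']; exact (gj _).symm
    · rw [inv_inv, ga]
      exact (cp_congr (gg u' hR'.2 hjR'.2) _ _).1 h2
  refine ⟨_, _, θ, hθ, hv.side, ?_, ?_, ?_⟩
  · have h1 := hv.path
    rw [hia] at h1
    rw [cp_append] at h1 ⊢
    obtain ⟨p, h2, h3, h4, h5, h6⟩ := h1
    rw [inv_inv, h3] at h6
    exact ⟨p, h2, h6⟩
  · intro x j' hx hc
    have h1 := hv.used x j' (by rw [hθ.cnteq]; omega) hc
    by_cases hjj : j' = j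
    · exfalso
      subst hjj
      obtain ⟨g', e1, e2, e3, e4⟩ := ext (fun _ => false) false false true (by
        have : ∀ V : List (Ltr L B), CP (fun _ => false) false V false := by
          intro V
          induction V with
          | nil => rfl
          | cons x V ih => exact ⟨rfl, ih⟩
        exact this _)
      have h2 := hv.univ g' _ _ e4 x (Sum.inr j', true) (by rw [hθ.cnteq]; omega)
        (by rw [hθ.cnteq]; simp [Piece.word, cnt_cons]) (by rw [hc, hv.side])
      rw [e2, e3 x (by intro h; rw [h] at hx; exact hx hR) (by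
        intro h; rw [h] at hx; exact hx hjR)] at h2
      exact absurd h2 (by simp)
    · rw [hθ.cnteq] at h1
      have h2 : cnt (Piece.bd k j δ : Piece L B).word (Sum.inr j') = 0 := by
        simp [Piece.word, cnt_cons, cnt_nil, Ne.symm hjj]
      omega
  · intro g p q hg x y' hx hy' hc
    obtain ⟨g', e1, e2, e3, e4⟩ := ext g p q true hg
    have h7 := hv.univ g' p q e4 x y' (by rw [hθ.cnteq]; omega) (by rw [hθ.cnteq]; omega) hc
    rwa [e3 x (by intro h; rw [h] at hx; exact hx hR) (by
        intro h; rw [h] at hx; exact hx hjR), e3 y' (by intro h; rw [h] at hy'; exact hy' hR) (by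
        intro h; rw [h] at hy'; exact hy' hjR)] at h7

theorem goodH {col : Ltr L B → Option B} (k l : L) (hkl : k ≠ l) (s t : Bool)
    (u y z w u' : List (Ltr L B))
    (hk : cnt (u ++ (Sum.inl k, s) :: (y ++ (Sum.inl l, t) :: (z ++ (Sum.inl k, !s) ::
      (w ++ (Sum.inl l, !t) :: u')))) (Sum.inl k) = 2)
    (hl : cnt (u ++ (Sum.inl k, s) :: (y ++ (Sum.inl l, t) :: (z ++ (Sum.inl k, !s) ::
      (w ++ (Sum.inl l, !t) :: u')))) (Sum.inl l) = 2)
    (hv : VC' (u ++ (Sum.inl k, s) :: (y ++ (Sum.inl l, t) :: (z ++ (Sum.inl k, !s) ::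
      (w ++ (Sum.inl l, !t) :: u')))) col) :
    Good col (u ++ (Sum.inl k, s) :: (y ++ (Sum.inl l, t) :: (z ++ (Sum.inl k, !s) ::
      (w ++ (Sum.inl l, !t) :: u')))) := by
  obtain ⟨θ, hθ⟩ := stepH k l hkl s t u y z w u' hk hl
  have hR : cnt (u ++ (w ++ (z ++ (y ++ u')))) (Sum.inl k) = 0 :=
    hθ.dis k (by simp [Piece.word, cnt_cons])
  have gR : cnt (u ++ (w ++ (z ++ (y ++ u')))) (Sum.inl l) = 0 :=
    hθ.dis l (by simp [Piece.word, cnt_cons])
  have hR' : cnt u (Sum.inl k) = 0 ∧ cnt w (Sum.inl k) = 0 ∧ cnt z (Sum.inl k) = 0 ∧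
      cnt y (Sum.inl k) = 0 ∧ cnt u' (Sum.inl k) = 0 := by
    simp only [cnt_append] at hR
    omega
  have gR' : cnt u (Sum.inl l) = 0 ∧ cnt w (Sum.inl l) = 0 ∧ cnt z (Sum.inl l) = 0 ∧
      cnt y (Sum.inl l) = 0 ∧ cnt u' (Sum.inl l) = 0 := by
    simp only [cnt_append] at gR
    omega
  set a : Ltr L B := (Sum.inl k, s) with ha
  set b : Ltr L B := (Sum.inl l, t) with hb
  have hia : (Sum.inl k, !s) = inv a := rfl
  have hib : (Sum.inl l, !t) = inv b := rfl
  have hne : inv a ≠ a := inv_ne a
  have hneb : inv b ≠ b := inv_ne b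
  have hab : a.1 ≠ b.1 := by simpa [ha, hb] using hkl
  have h1ab : b ≠ a := fun h => hab (by rw [h])
  have h2ab : b ≠ inv a := fun h => hab (by rw [h]; rfl)
  have h3ab : inv b ≠ a := fun h => hab (by rw [← h]; rfl)
  have h4ab : inv b ≠ inv a := fun h => hab (by
    have := congrArg Prod.fst h; exact this.symm)
  refine ⟨_, _, θ, hθ, hv.side, ?_, ?_, ?_⟩
  · have h1 := hv.path
    rw [hia, hib] at h1
    simp only [cp_append, CP, inv_inv] at h1 ⊢
    obtain ⟨p₁, i1, i2, p₄, i3, i4, p₃, i5, i6, p₂, i7, i8, i9⟩ := h1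
    subst i2 i4 i6 i8
    exact ⟨_, i1, _, i7, _, i5, _, i3, i9⟩
  · intro x j hx hc
    have h1 := hv.used x j (by rw [hθ.cnteq]; omega) hc
    rw [hθ.cnteq] at h1
    have h2 : cnt (Piece.com k l : Piece L B).word (Sum.inr j) = 0 := by
      simp [Piece.word, cnt_cons, cnt_nil]
    omega
  · intro g p q hg x y' hx hy' hc
    simp only [cp_append] at hg
    obtain ⟨P₁, h1, P₂, h2, P₃, h3, P₄, h4, h5⟩ := hg
    let g' : Ltr L B → Bool := fun x => if x = a then P₁ else if x = inv a then P₃ else
      if x = b then P₄ else if x = inv b then P₂ else g x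
    have ga : g' a = P₁ := by simp [g']
    have ga' : g' (inv a) = P₃ := by simp [g', hne]
    have gb : g' b = P₄ := by simp [g', h1ab, h2ab]
    have gb' : g' (inv b) = P₂ := by simp [g', h3ab, h4ab, hneb]
    have gg : ∀ V : List (Ltr L B), cnt V (Sum.inl k) = 0 → cnt V (Sum.inl l) = 0 →
        ∀ x, cnt V x.1 ≠ 0 → g x = g' x := by
      intro V hV hV' x hx
      have h5 : x ≠ a := by rintro rfl; exact hx hV
      have h6 : x ≠ inv a := by rintro rfl; exact hx hV
      have h7 : x ≠ b := by rintro rfl; exact hx hV'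
      have h8 : x ≠ inv b := by rintro rfl; exact hx hV'
      simp [g', h5, h6, h7, h8]
    have key : CP g' p (u ++ a :: (y ++ b :: (z ++ inv a :: (w ++ inv b :: u')))) q := by
      simp only [cp_append, CP, inv_inv, ga, ga', gb, gb']
      exact ⟨P₁, (cp_congr (gg u hR'.1 gR'.1) _ _).1 h1, rfl, P₄,
        (cp_congr (gg y hR'.2.2.2.1 gR'.2.2.2.1) _ _).1 h4, rfl, P₃,
        (cp_congr (gg z hR'.2.2.1 gR'.2.2.1) _ _).1 h3, rfl, P₂,
        (cp_congr (gg w hR'.2.1 gR'.2.1) _ _).1 h2, rfl,
        (cp_congr (gg u' hR'.2.2.2.2 gR'.2.2.2.2) _ _).1 h5⟩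
    have h7 := hv.univ g' p q key x y' (by rw [hθ.cnteq]; omega) (by rw [hθ.cnteq]; omega) hc
    rwa [← gg _ hR gR x hx, ← gg _ hR gR y' hy'] at h7

theorem exists_decomp {W : List (Ltr L B)} {x : L ⊕ B} (h : 2 ≤ cnt W x) :
    ∃ u a y a' u', W = u ++ a :: (y ++ a' :: u') ∧ a.1 = x ∧ a'.1 = x := by
  induction W with
  | nil => simp [cnt_nil] at h
  | cons z W ih =>
    by_cases hz : z.1 = x
    · rw [cnt_cons, if_pos hz] at h
      obtain ⟨a', ha', hx⟩ := cnt_ne_zero.1 (show cnt W x ≠ 0 by omega)
      obtain ⟨y, u', hW⟩ := List.append_of_mem ha'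
      exact ⟨[], z, y, a', u', by rw [hW]; rfl, hz, hx⟩
    · rw [cnt_cons, if_neg hz] at h
      obtain ⟨u, a, y, a', u', h1, h2, h3⟩ := ih (by omega)
      exact ⟨z :: u, a, y, a', u', by rw [h1]; rfl, h2, h3⟩

theorem good_of_vc {col : Ltr L B → Option B} (W : List (Ltr L B)) (hW : W ≠ [])
    (h2 : ∀ k, cnt W (Sum.inl k) = 0 ∨ cnt W (Sum.inl k) = 2) (h1 : ∀ j, cnt W (Sum.inr j) ≤ 1)
    (hv : VC' W col) : Good col W := by
  classical
  let D : ℕ → Prop := fun n => ∃ (u : List (Ltr L B)) (a : Ltr L B) (y : List (Ltr L B))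
    (a' : Ltr L B) (u' : List (Ltr L B)), W = u ++ a :: (y ++ a' :: u') ∧ a'.1 = a.1 ∧
      (∃ k, a.1 = Sum.inl k) ∧ y.length = n
  have hD : ∃ n, D n := by
    obtain ⟨x, W', rfl⟩ := List.exists_cons_of_ne_nil hW
    obtain ⟨x, b⟩ := x
    rcases x with k | j
    · have h3 : cnt ((Sum.inl k, b) :: W') (Sum.inl k) = 2 := by
        rcases h2 k with h3 | h3
        · rw [cnt_cons, if_pos rfl] at h3; omega
        · exact h3
      obtain ⟨u, a, y, a', u', h4, h5, h6⟩ := exists_decomp h3.ge
      exact ⟨_, u, a, y, a', u', h4, by rw [h5, h6], ⟨k, h5⟩, rfl⟩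
    · exfalso
      have := hv.path.1
      rw [hv.side] at this
      exact absurd this (by simp)
  obtain ⟨u, a, y, a', u', hWe, haa, ⟨k, hk⟩, hy⟩ := Nat.find_spec hD
  have hmin : ∀ n, D n → y.length ≤ n := by
    intro n hn
    rw [hy]
    exact Nat.find_min' hD hn
  obtain ⟨ak, s⟩ := a
  simp only at hk
  subst hk
  obtain ⟨ak', s'⟩ := a'
  simp only at haa
  subst haa
  have hck : cnt W (Sum.inl k) = 2 := by
    rcases h2 k with h3 | h3
    · rw [hWe] at h3; simp only [cnt_append, cnt_cons, if_true] at h3; omega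
    · exact h3
  by_cases hs : s' = s
  · subst hs
    rw [hWe] at hck hv ⊢
    exact goodC k s' u y u' hck hv
  have hs' : s' = !s := by cases s <;> cases s' <;> simp_all
  subst hs'
  by_cases hex : ∃ b ∈ y, ∃ l, b.1 = Sum.inl l
  · obtain ⟨b, hb, l, hbl⟩ := hex
    obtain ⟨bl, t⟩ := b
    simp only at hbl
    subst hbl
    obtain ⟨y₁, y₂, hy12⟩ := List.append_of_mem hb
    have hcy : cnt y (Sum.inl k) = 0 := by
      rw [hWe] at hck; simp only [cnt_append, cnt_cons, if_true] at hck; omega
    have hkl : k ≠ l := by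
      rintro rfl
      rw [hy12] at hcy
      simp only [cnt_append, cnt_cons, if_true] at hcy
      omega
    have hlk' : ¬ ((Sum.inl k : L ⊕ B) = Sum.inl l) := by
      intro h; exact hkl (Sum.inl_injective h)
    have hcl : cnt W (Sum.inl l) = 2 := by
      rcases h2 l with h3 | h3
      · rw [hWe, hy12] at h3; simp only [cnt_append, cnt_cons, if_true] at h3; omega
      · exact h3
    have hcy1 : cnt y₁ (Sum.inl l) = 0 ∧ cnt y₂ (Sum.inl l) = 0 := by
      by_contra hne
      have h3 : 2 ≤ cnt y (Sum.inl l) := by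
        rw [hy12]; simp only [cnt_append, cnt_cons, if_true]; omega
      obtain ⟨v, c, r, c', v', h4, h5, h6⟩ := exists_decomp h3
      have := hmin r.length ⟨u ++ (Sum.inl k, s) :: v, c, r, c', v' ++ (Sum.inl k, !s) :: u',
        by rw [hWe, h4]; simp, by rw [h5, h6], ⟨l, h5⟩, rfl⟩
      rw [h4] at this
      simp only [List.length_append, List.length_cons] at this
      omega
    have hout : cnt u (Sum.inl l) ≠ 0 ∨ cnt u' (Sum.inl l) ≠ 0 := by
      by_contra hne
      push Not at hne
      rw [hWe, hy12] at hcl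
      simp only [cnt_append, cnt_cons, if_true, if_neg hlk'] at hcl
      omega
    rcases hout with hout | hout
    · obtain ⟨b', hb', hbl'⟩ := cnt_ne_zero.1 hout
      obtain ⟨u₁, u₂, hu12⟩ := List.append_of_mem hb'
      obtain ⟨bl, t'⟩ := b'
      simp only at hbl'
      subst hbl'
      by_cases ht : t' = t
      · subst ht
        have hWe' : W = u₁ ++ (Sum.inl l, t') :: ((u₂ ++ (Sum.inl k, s) :: y₁) ++
            (Sum.inl l, t') :: (y₂ ++ (Sum.inl k, !s) :: u')) := by
          rw [hWe, hu12, hy12]; simp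
        rw [hWe'] at hcl hv ⊢
        exact goodC l t' _ _ _ hcl hv
      · have ht' : t = !t' := by cases t <;> cases t' <;> simp_all
        subst ht'
        have hWe' : W = u₁ ++ (Sum.inl l, t') :: (u₂ ++ (Sum.inl k, s) :: (y₁ ++
            (Sum.inl l, !t') :: (y₂ ++ (Sum.inl k, !s) :: u'))) := by
          rw [hWe, hu12, hy12]; simp
        rw [hWe'] at hcl hck hv ⊢
        exact goodH l k hkl.symm t' s _ _ _ _ _ hcl hck hv
    · obtain ⟨b', hb', hbl'⟩ := cnt_ne_zero.1 hout
      obtain ⟨w, u'', hu12⟩ := List.append_of_mem hb'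
      obtain ⟨bl, t'⟩ := b'
      simp only at hbl'
      subst hbl'
      by_cases ht : t' = t
      · subst ht
        have hWe' : W = (u ++ (Sum.inl k, s) :: y₁) ++ (Sum.inl l, t') :: ((y₂ ++
            (Sum.inl k, !s) :: w) ++ (Sum.inl l, t') :: u'') := by
          rw [hWe, hu12, hy12]; simp
        rw [hWe'] at hcl hv ⊢
        exact goodC l t' _ _ _ hcl hv
      · have ht' : t' = !t := by cases t <;> cases t' <;> simp_all
        subst ht'
        have hWe' : W = u ++ (Sum.inl k, s) :: (y₁ ++ (Sum.inl l, t) :: (y₂ ++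
            (Sum.inl k, !s) :: (w ++ (Sum.inl l, !t) :: u''))) := by
          rw [hWe, hu12, hy12]; simp
        rw [hWe'] at hcl hck hv ⊢
        exact goodH k l hkl s t _ _ _ _ _ hck hcl hv
  · -- only sides in y
    have hsides : ∀ b ∈ y, ∃ j, b.1 = Sum.inr j := by
      intro b hb
      obtain ⟨b, t⟩ := b
      rcases b with l | j
      · exact absurd ⟨_, hb, l, rfl⟩ hex
      · exact ⟨j, rfl⟩
    have hcu : cnt u (Sum.inl k) = 0 ∧ cnt u' (Sum.inl k) = 0 := by
      rw [hWe] at hck
      simp only [cnt_append, cnt_cons, if_true] at hck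
      omega
    cases y with
    | nil =>
      exfalso
      rw [List.nil_append] at hWe
      set a : Ltr L B := (Sum.inl k, s) with ha
      have hia : (Sum.inl k, !s) = inv a := rfl
      rw [hia] at hWe
      have hne : a ≠ inv a := (inv_ne a).symm
      let g : Ltr L B → Bool := fun x => decide (x = inv a)
      have g1 : g a = false := by simp [g, hne]
      have g2 : g (inv a) = true := by simp [g]
      have gf : ∀ V : List (Ltr L B), cnt V (Sum.inl k) = 0 → CP g false V false := by
        intro V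
        induction V with
        | nil => intro _; rfl
        | cons x V ih =>
          intro hV
          rw [cnt_cons] at hV
          have hx : x.1 ≠ Sum.inl k := by
            intro h; rw [if_pos h] at hV; omega
          have e1 : g x = false := by
            simp only [g, decide_eq_false_iff_not]
            rintro rfl
            exact hx rfl
          have e2 : g (inv x) = false := by
            simp only [g, decide_eq_false_iff_not]
            intro h
            exact hx (congrArg Prod.fst h)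
          refine ⟨e1, ?_⟩
          rw [e2]
          exact ih (by omega)
      have key : CP g false W false := by
        rw [hWe, cp_append]
        refine ⟨false, gf u hcu.1, g1, rfl, ?_⟩
        rw [inv_inv, g1]
        exact gf u' hcu.2
      have hua : cnt W (inv a).1 ≠ 0 := by
        show cnt W (Sum.inl k) ≠ 0
        omega
      cases hc : col (inv a) with
      | none =>
        obtain ⟨x, W', hW'⟩ := List.exists_cons_of_ne_nil hW
        have h3 := hv.path
        rw [hW'] at h3
        have h4 := hv.univ g _ _ key x (inv a) (by rw [hW', cnt_cons, if_pos rfl]; omega) hua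
          (by rw [h3.1, hc])
        have h5 := key
        rw [hW'] at h5
        rw [h5.1, g2] at h4
        exact absurd h4 (by simp)
      | some j =>
        have h3 := hv.used (inv a) j hua hc
        have h4 := hv.univ g _ _ key (Sum.inr j, true) (inv a) h3 hua (by rw [hc, hv.side])
        rw [g2] at h4
        simp [g, inv, ha] at h4
    | cons b y =>
      obtain ⟨b, δ⟩ := b
      obtain ⟨j, hj⟩ := hsides _ List.mem_cons_self
      simp only at hj
      subst hj
      cases y with
      | nil =>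
        have hWe' : W = u ++ (Sum.inl k, s) :: (Sum.inr j, δ) :: (Sum.inl k, !s) :: u' := by
          rw [hWe]; simp
        have hj1 := h1 j
        rw [hWe'] at hck hj1 hv ⊢
        exact goodB k s j δ u u' hck hj1 hv
      | cons b y =>
        exfalso
        obtain ⟨b, δ'⟩ := b
        obtain ⟨j', hj'⟩ := hsides _ (List.mem_cons_of_mem _ List.mem_cons_self)
        simp only at hj'
        subst hj'
        have h3 := hv.path
        rw [hWe, cp_append] at h3
        obtain ⟨p, _, h4⟩ := h3
        simp only [List.cons_append, CP] at h4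
        obtain ⟨_, h5, h6, _⟩ := h4
        have h7 : inv ((Sum.inr j, δ) : Ltr L B) = (Sum.inr j, !δ) := rfl
        rw [h7, hv.side, hv.side] at h6
        have : j' = j := by simpa using h6
        subst this
        have h8 := h1 j'
        rw [hWe] at h8
        simp only [List.cons_append, cnt_append, cnt_cons, if_true] at h8
        omega

theorem extract_ext {col : Ltr L B → Option B} : ∀ (n : ℕ) (W : List (Ltr L B)), W.length = n →
    (∀ k, cnt W (Sum.inl k) = 0 ∨ cnt W (Sum.inl k) = 2) → (∀ j, cnt W (Sum.inr j) ≤ 1) →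
    VC' W col → ∃ ps f, Ext W ps f := by
  intro n
  induction n using Nat.strong_induction_on with
  | _ n ih =>
    intro W hn h2 h1 hv
    by_cases hW : W = []
    · subst hW
      exact ⟨_, _, ext_nil⟩
    · obtain ⟨R, P, θ, hs, hv'⟩ := good_of_vc W hW h2 h1 hv
      obtain ⟨ps, f, hf⟩ := ih R.length (by
        have h3 := hs.len
        have h4 := word_len P
        omega) R rfl (by
        intro k
        by_cases hP : cnt P.word (Sum.inl k) = 0
        · have h3 := hs.cnteq (Sum.inl k)
          rcases h2 k with h4 | h4 <;> omega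
        · left; exact hs.dis k hP) (by
        intro j
        have h3 := hs.cnteq (Sum.inr j)
        have h4 := h1 j
        omega) hv'
      exact ⟨_, _, ext_cons hs hf⟩

end EX

/-- E1. Extraction of pieces. -/
theorem extract : ExtractStatement := by
  intro L B _ _ _ _ W col h2 h1 hv
  obtain ⟨ps, f, hf⟩ := EX.extract_ext W.length W rfl h2 h1 (EX.vc'_of_vc hv)
  exact ⟨ps, hf.cnteq, EX.ext_eqw hf⟩

end Pool.Agent.Helper35_WH
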