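import Pool.Agent.Helper35_WH.Stmt3

/-!
# Elementary moves on quadratic words
-/

namespace Pool.Agent.Helper35_WH

open FreeGroup

set_option linter.unusedSectionVars false

namespace EX

variable {L B : Type} [DecidableEq L] [DecidableEq B]

theorem inv_mk' (W : List (Ltr L B)) : (mk W)⁻¹ = mk (invRev W) := FreeGroup.inv_mk

theorem mk_app (U V : List (Ltr L B)) : mk (U ++ V) = mk U * mk V := FreeGroup.mul_mk.symm

theorem mk_cons' (x : Ltr L B) (V : List (Ltr L B)) : mk (x :: V) = mk [x] * mk V :=
  mk_app [x] V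

theorem mk_inv_single (x : Ltr L B) : mk [inv x] = (mk [x])⁻¹ := by
  rw [FreeGroup.inv_mk]; rfl

/-- a homomorphism fixing all letters of a word fixes the word -/
theorem fix_mk (f : FreeGroup (L ⊕ B) ≃* FreeGroup (L ⊕ B)) (V : List (Ltr L B))
    (h : ∀ x ∈ V, f (of x.1) = of x.1) : f (mk V) = mk V := by
  induction V with
  | nil => exact map_one f
  | cons x V ih =>
    rw [mk_cons', _root_.map_mul, ih fun y hy => h y (List.mem_cons_of_mem _ hy)]
    have h1 := h x (List.mem_cons_self)
    obtain ⟨x, b⟩ := x
    cases b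
    · have h2 : mk [(x, false)] = (of x : FreeGroup (L ⊕ B))⁻¹ := by
        rw [of, FreeGroup.inv_mk]; rfl
      rw [h2, _root_.map_inv, h1]
    · have h2 : mk [(x, true)] = (of x : FreeGroup (L ⊕ B)) := rfl
      rw [h2, h1]

theorem norm_mk_le' (V : List (Ltr L B)) : (mk V).norm ≤ V.length := FreeGroup.norm_mk_le

/-- the elementary substitution of one letter -/
theorem tw (k : L) (s : Bool) (P Q : List (Ltr L B)) (hP : ∀ x ∈ P, x.1 ≠ Sum.inl k)
    (hQ : ∀ x ∈ Q, x.1 ≠ Sum.inl k) : ∃ f : FreeGroup (L ⊕ B) ≃* FreeGroup (L ⊕ B),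
    (∀ x, x ≠ Sum.inl k → f (of x) = of x) ∧ (∀ x, x ≠ Sum.inl k → f.symm (of x) = of x) ∧
    f (mk [(Sum.inl k, s)]) = mk P * of (Sum.inl k) * mk Q ∧
    f.symm (of (Sum.inl k)) = (mk P)⁻¹ * mk [(Sum.inl k, s)] * (mk Q)⁻¹ := by
  classical
  -- the two homomorphisms
  let F : FreeGroup (L ⊕ B) →* FreeGroup (L ⊕ B) := FreeGroup.lift fun x =>
    if x = Sum.inl k then (if s then mk P * of (Sum.inl k) * mk Q else
      (mk P * of (Sum.inl k) * mk Q)⁻¹) else of x
  let G : FreeGroup (L ⊕ B) →* FreeGroup (L ⊕ B) := FreeGroup.lift fun x =>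
    if x = Sum.inl k then (mk P)⁻¹ * mk [(Sum.inl k, s)] * (mk Q)⁻¹ else of x
  have hF : ∀ x, x ≠ Sum.inl k → F (of x) = of x := fun x hx => by simp [F, hx]
  have hG : ∀ x, x ≠ Sum.inl k → G (of x) = of x := fun x hx => by simp [G, hx]
  have hGk : G (of (Sum.inl k)) = (mk P)⁻¹ * mk [(Sum.inl k, s)] * (mk Q)⁻¹ := by simp [G]
  have hFk : F (mk [(Sum.inl k, s)]) = mk P * of (Sum.inl k) * mk Q := by
    cases s
    · have h2 : mk [((Sum.inl k : L ⊕ B), false)] = (of (Sum.inl k) : FreeGroup (L ⊕ B))⁻¹ := by
        rw [of, FreeGroup.inv_mk]; rfl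
      rw [h2, _root_.map_inv]
      simp [F]
    · have h2 : mk [((Sum.inl k : L ⊕ B), true)] = (of (Sum.inl k) : FreeGroup (L ⊕ B)) := rfl
      rw [h2]
      simp [F]
  have fixl : ∀ (H : FreeGroup (L ⊕ B) →* FreeGroup (L ⊕ B)), (∀ x, x ≠ Sum.inl k → H (of x) = of x) →
      ∀ V : List (Ltr L B), (∀ x ∈ V, x.1 ≠ Sum.inl k) → H (mk V) = mk V := by
    intro H hH V
    induction V with
    | nil => intro _; exact map_one H
    | cons x V ih =>
      intro h
      rw [mk_cons', _root_.map_mul, ih fun y hy => h y (List.mem_cons_of_mem _ hy)]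
      have h1 := hH x.1 (h x (List.mem_cons_self))
      obtain ⟨x, b⟩ := x
      cases b
      · have h2 : mk [(x, false)] = (of x : FreeGroup (L ⊕ B))⁻¹ := by
          rw [of, FreeGroup.inv_mk]; rfl
        rw [h2, _root_.map_inv, h1]
      · have h2 : mk [(x, true)] = (of x : FreeGroup (L ⊕ B)) := rfl
        rw [h2, h1]
  have c1 : F.comp G = MonoidHom.id _ := by
    apply FreeGroup.ext_hom
    intro x
    rw [MonoidHom.comp_apply, MonoidHom.id_apply]
    by_cases hx : x = Sum.inl k
    · subst hx
      rw [hGk, _root_.map_mul, _root_.map_mul, _root_.map_inv, _root_.map_inv, hFk, fixl F hF P hP, fixl F hF Q hQ]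
      group
    · rw [hG x hx, hF x hx]
  have hGk' : G (mk [(Sum.inl k, s)]) = (if s then (mk P)⁻¹ * mk [(Sum.inl k, s)] * (mk Q)⁻¹ else
      ((mk P)⁻¹ * mk [(Sum.inl k, s)] * (mk Q)⁻¹)⁻¹) := by
    cases s
    · have h2 : mk [((Sum.inl k : L ⊕ B), false)] = (of (Sum.inl k) : FreeGroup (L ⊕ B))⁻¹ := by
        rw [of, FreeGroup.inv_mk]; rfl
      rw [show G (mk [((Sum.inl k : L ⊕ B), false)]) = (G (of (Sum.inl k)))⁻¹ by rw [h2, _root_.map_inv], hGk]
      simp
    · have h2 : mk [((Sum.inl k : L ⊕ B), true)] = (of (Sum.inl k) : FreeGroup (L ⊕ B)) := rfl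
      rw [show G (mk [((Sum.inl k : L ⊕ B), true)]) = (G (of (Sum.inl k))) by rw [h2], hGk]
      simp
  have c2 : G.comp F = MonoidHom.id _ := by
    apply FreeGroup.ext_hom
    intro x
    rw [MonoidHom.comp_apply, MonoidHom.id_apply]
    by_cases hx : x = Sum.inl k
    · subst hx
      have h3 : F (of (Sum.inl k)) = (if s then mk P * of (Sum.inl k) * mk Q else
        (mk P * of (Sum.inl k) * mk Q)⁻¹) := by simp [F]
      rw [h3]
      cases s
      · simp only [Bool.false_eq_true, ↓reduceIte]
        rw [_root_.map_inv, _root_.map_mul, _root_.map_mul, hGk, fixl G hG P hP, fixl G hG Q hQ]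
        have h2 : mk [((Sum.inl k : L ⊕ B), false)] = (of (Sum.inl k) : FreeGroup (L ⊕ B))⁻¹ := by
          rw [of, FreeGroup.inv_mk]; rfl
        rw [h2]; group
      · simp only [↓reduceIte]
        rw [_root_.map_mul, _root_.map_mul, hGk, fixl G hG P hP, fixl G hG Q hQ]
        have h2 : mk [((Sum.inl k : L ⊕ B), true)] = (of (Sum.inl k) : FreeGroup (L ⊕ B)) := rfl
        rw [h2]; group
    · rw [hF x hx, hG x hx]
  refine ⟨MulEquiv.ofBijective F ?_, ?_, ?_, ?_, ?_⟩
  · constructor
    · intro x y hxy
      have := congrArg G hxy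
      rwa [← MonoidHom.comp_apply, ← MonoidHom.comp_apply, c2] at this
    · intro y
      exact ⟨G y, by rw [← MonoidHom.comp_apply, c1]; rfl⟩
  · intro x hx; exact hF x hx
  · intro x hx
    rw [MulEquiv.symm_apply_eq]
    exact (hF x hx).symm
  · exact hFk
  · rw [MulEquiv.symm_apply_eq]
    show _ = F ((mk P)⁻¹ * mk [(Sum.inl k, s)] * (mk Q)⁻¹)
    rw [_root_.map_mul, _root_.map_mul, _root_.map_inv, _root_.map_inv, hFk, fixl F hF P hP, fixl F hF Q hQ]
    group

/-- all prefixes of `p ++ r` which contain `p` have the property `Q` -/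
def AllPre (Q : List (Ltr L B) → Prop) (p r : List (Ltr L B)) : Prop :=
  ∀ V V', r = V ++ V' → Q (p ++ V)

theorem allPre_append (Q : List (Ltr L B) → Prop) (p x y : List (Ltr L B))
    (h1 : AllPre Q p x) (h2 : AllPre Q (p ++ x) y) : AllPre Q p (x ++ y) := by
  intro V V' h
  rcases List.append_eq_append_iff.1 h with ⟨a, h3, h4⟩ | ⟨a, h3, h4⟩
  · rw [h3, ← List.append_assoc]
    exact h2 a V' h4
  · exact h1 V a h3

theorem allPre_cons (Q : List (Ltr L B) → Prop) (p : List (Ltr L B)) (x : Ltr L B)
    (y : List (Ltr L B)) (h1 : Q p) (h2 : AllPre Q (p ++ [x]) y) : AllPre Q p (x :: y) := by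
  intro V V' h
  cases V with
  | nil => simpa using h1
  | cons a V =>
    rw [List.cons_append, List.cons.injEq] at h
    have := h2 V V' h.2
    rw [List.append_assoc] at this
    rw [← h.1]
    exact this

/-- An elementary step: the piece `P` is split off from `W`, the remaining word is `R`. -/
structure Step (W R : List (Ltr L B)) (P : Piece L B)
    (θ : FreeGroup (L ⊕ B) ≃* FreeGroup (L ⊕ B)) : Prop where
  fix : ∀ x, (∀ k, x = Sum.inl k → cnt P.word x = 0) → θ (of x) = of x
  fix' : ∀ x, (∀ k, x = Sum.inl k → cnt P.word x = 0) → θ.symm (of x) = of x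
  im : θ (mk W) = mk P.word * mk R
  pre : AllPre (fun V => ∃ G Rp Rs : List (Ltr L B), R = Rp ++ Rs ∧ G.length ≤ 4 ∧
    (∀ x ∈ G, ∀ k, x.1 = Sum.inl k → cnt P.word x.1 ≠ 0) ∧ θ (mk V) = mk G * mk Rp) [] W
  cnteq : ∀ x, cnt W x = cnt P.word x + cnt R x
  len : W.length = P.word.length + R.length
  dis : ∀ k, cnt P.word (Sum.inl k) ≠ 0 → cnt R (Sum.inl k) = 0
  inv : ∀ k, cnt P.word (Sum.inl k) ≠ 0 → ∃ V : List (Ltr L B), V.length ≤ 2 * W.length + 1 ∧
    θ.symm (of (Sum.inl k)) = mk V ∧ ∀ x ∈ V, cnt W x.1 ≠ 0

theorem cnt_append (U V : List (Ltr L B)) (x : L ⊕ B) : cnt (U ++ V) x = cnt U x + cnt V x := by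
  simp [cnt]

theorem cnt_cons (y : Ltr L B) (V : List (Ltr L B)) (x : L ⊕ B) :
    cnt (y :: V) x = (if y.1 = x then 1 else 0) + cnt V x := by
  simp [cnt, List.countP_cons, add_comm]

theorem cnt_nil (x : L ⊕ B) : cnt ([] : List (Ltr L B)) x = 0 := by simp [cnt]

theorem cnt_invRev (V : List (Ltr L B)) (x : L ⊕ B) : cnt (invRev V) x = cnt V x := by
  simp [cnt, invRev, List.countP_map, Function.comp_def]

theorem cnt_ne_zero {V : List (Ltr L B)} {x : L ⊕ B} : cnt V x ≠ 0 ↔ ∃ y ∈ V, y.1 = x := by
  unfold cnt
  rw [Nat.ne_zero_iff_zero_lt, List.countP_pos_iff]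
  simp

theorem not_mem_of_cnt {V : List (Ltr L B)} {x : L ⊕ B} (h : cnt V x = 0) : ∀ y ∈ V, y.1 ≠ x := by
  intro y hy hxy
  exact cnt_ne_zero.2 ⟨y, hy, hxy⟩ h

/-- The crosscap move. -/
theorem stepC (k : L) (s : Bool) (u y u' : List (Ltr L B))
    (h : cnt (u ++ (Sum.inl k, s) :: (y ++ (Sum.inl k, s) :: u')) (Sum.inl k) = 2) :
    ∃ θ, Step (u ++ (Sum.inl k, s) :: (y ++ (Sum.inl k, s) :: u')) (u ++ (invRev y ++ u')) (.sq k) θ := by
  have hc : cnt u (Sum.inl k) = 0 ∧ cnt y (Sum.inl k) = 0 ∧ cnt u' (Sum.inl k) = 0 := by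
    simp only [cnt_append, cnt_cons, if_true] at h
    omega
  obtain ⟨hu, hy, hu'⟩ := hc
  have hy' : cnt (invRev y) (Sum.inl k) = 0 := by rw [cnt_invRev, hy]
  obtain ⟨θ, t1, t2, t3, t4⟩ := tw (B := B) k s (invRev u) (u ++ invRev y)
    (not_mem_of_cnt (by rw [cnt_invRev, hu]))
    (not_mem_of_cnt (by rw [cnt_append, hu, hy']))
  have fx : ∀ V : List (Ltr L B), cnt V (Sum.inl k) = 0 → θ (mk V) = mk V := fun V hV =>
    fix_mk θ V fun x hx => t1 _ (not_mem_of_cnt hV x hx)
  have sub : ∀ V V' : List (Ltr L B), cnt (V ++ V') (Sum.inl k) = 0 → cnt V (Sum.inl k) = 0 ∧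
      cnt V' (Sum.inl k) = 0 := by
    intro V V' hV
    rw [cnt_append] at hV
    omega
  refine ⟨θ, ⟨?_, ?_, ?_, ?_, ?_, ?_, ?_, ?_⟩⟩
  · intro x hx
    apply t1
    rintro rfl
    have := hx k rfl
    simp [Piece.word, cnt_cons] at this
  · intro x hx
    apply t2
    rintro rfl
    have := hx k rfl
    simp [Piece.word, cnt_cons] at this
  · simp only [mk_app, mk_cons' (B := B) (_) (_ ++ _), mk_cons' (B := B) _ u', _root_.map_mul, t3,
      fx u hu, fx y hy, fx u' hu', ← inv_mk', Piece.word]
    rw [mk_cons' (Sum.inl k, true) [(Sum.inl k, true)]]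
    show _ = of (Sum.inl k) * of (Sum.inl k) * _
    group
  · apply allPre_append
    · intro V V' hV
      refine ⟨[], V, V' ++ (invRev y ++ u'), by simp [hV], by simp, by simp, ?_⟩
      rw [List.nil_append, fx V (sub V V' (hV ▸ hu)).1]
      exact (one_mul _).symm
    · apply allPre_cons
      · refine ⟨[], u, invRev y ++ u', rfl, by simp, by simp, ?_⟩
        rw [List.nil_append, fx u hu]
        exact (one_mul _).symm
      · apply allPre_append
        · intro V V' hV
          refine ⟨[(Sum.inl k, true)], u ++ invRev V', invRev V ++ u', ?_, by simp, ?_, ?_⟩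
          · rw [hV]; simp [invRev]
          · intro x hx k' _
            simp only [List.mem_singleton] at hx
            subst hx
            simp [Piece.word, cnt_cons]
          · have h1 := sub V V' (hV ▸ hy)
            simp only [List.nil_append, mk_app, _root_.map_mul, fx u hu, t3, fx V h1.1]
            rw [← inv_mk', ← inv_mk', ← inv_mk', hV, mk_app]
            show _ = of (Sum.inl k) * _
            group
        · apply allPre_cons
          · refine ⟨[(Sum.inl k, true)], u, invRev y ++ u', rfl, by simp, ?_, ?_⟩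
            · intro x hx k' _
              simp only [List.mem_singleton] at hx
              subst hx
              simp [Piece.word, cnt_cons]
            · simp only [List.nil_append, mk_app, _root_.map_mul, fx u hu, t3, fx y hy]
              rw [← inv_mk', ← inv_mk']
              show _ = of (Sum.inl k) * _
              group
          · intro V V' hV
            refine ⟨[(Sum.inl k, true), (Sum.inl k, true)], u ++ (invRev y ++ V), V', ?_, by simp, ?_, ?_⟩
            · rw [hV]; simp
            · intro x hx k' _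
              have : x = (Sum.inl k, true) := by simpa using hx
              subst this
              simp [Piece.word, cnt_cons]
            · have h1 := sub V V' (hV ▸ hu')
              simp only [List.nil_append, mk_app, _root_.map_mul, fx u hu, t3, fx y hy, fx V h1.1]
              rw [← inv_mk', ← inv_mk', mk_cons' (Sum.inl k, true) [(Sum.inl k, true)]]
              show _ = of (Sum.inl k) * of (Sum.inl k) * _
              group
  · intro x
    simp only [Piece.word, cnt_append, cnt_cons, cnt_nil, cnt_invRev]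
    omega
  · simp [Piece.word, invRev]
    omega
  · intro k' hk'
    have : k' = k := by
      by_contra hne
      apply hk'
      simp [Piece.word, cnt_cons, cnt_nil, Ne.symm hne]
    subst this
    simp only [cnt_append, hu, hy', hu']
  · intro k' hk'
    have : k' = k := by
      by_contra hne
      apply hk'
      simp [Piece.word, cnt_cons, cnt_nil, Ne.symm hne]
    subst this
    refine ⟨u ++ [(Sum.inl k', s)] ++ (y ++ invRev u), ?_, ?_, ?_⟩
    · simp [invRev]
      omega
    · rw [t4]
      simp only [mk_app, ← inv_mk']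
      group
    · intro x hx
      rw [cnt_ne_zero]
      simp only [List.mem_append, List.mem_singleton] at hx
      rcases hx with (hx | hx) | hx | hx
      · exact ⟨x, by simp [hx], rfl⟩
      · exact ⟨x, by simp [hx], rfl⟩
      · exact ⟨x, by simp [hx], rfl⟩
      · have : cnt u x.1 ≠ 0 := by
          rw [← cnt_invRev]; exact cnt_ne_zero.2 ⟨x, hx, rfl⟩
        obtain ⟨z, hz, hz'⟩ := cnt_ne_zero.1 this
        exact ⟨z, by simp [hz], hz'⟩

theorem one_side (k : L) (P : List (Ltr L B)) (h : ∀ x ∈ P, x.1 = Sum.inl k) (k' : L)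
    (hk' : cnt P (.inl k') ≠ 0) : k' = k := by
  obtain ⟨x, hx, hx'⟩ := cnt_ne_zero.1 hk'
  have := h x hx
  rw [hx'] at this
  exact Sum.inl_injective this

/-- The boundary move. -/
theorem stepB (k : L) (s : Bool) (j : B) (δ : Bool) (u u' : List (Ltr L B))
    (h : cnt (u ++ (Sum.inl k, s) :: (Sum.inr j, δ) :: (Sum.inl k, !s) :: u') (Sum.inl k) = 2) :
    ∃ θ, Step (u ++ (Sum.inl k, s) :: (Sum.inr j, δ) :: (Sum.inl k, !s) :: u') (u ++ u')
      (.bd k j δ) θ := by
  have hc : cnt u (Sum.inl k) = 0 ∧ cnt u' (Sum.inl k) = 0 := by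
    simp only [cnt_append, cnt_cons, if_true] at h
    omega
  obtain ⟨hu, hu'⟩ := hc
  obtain ⟨θ, t1, t2, t3, t4⟩ := tw (B := B) k s (invRev u) []
    (not_mem_of_cnt (by rw [cnt_invRev, hu])) (by simp)
  have fx : ∀ V : List (Ltr L B), cnt V (Sum.inl k) = 0 → θ (mk V) = mk V := fun V hV =>
    fix_mk θ V fun x hx => t1 _ (not_mem_of_cnt hV x hx)
  have sub : ∀ V V' : List (Ltr L B), cnt (V ++ V') (Sum.inl k) = 0 → cnt V (Sum.inl k) = 0 ∧
      cnt V' (Sum.inl k) = 0 := by
    intro V V' hV
    rw [cnt_append] at hV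
    omega
  have t3' : θ (mk [(Sum.inl k, !s)]) = (mk (invRev u) * of (Sum.inl k) * mk [])⁻¹ := by
    rw [← t3, ← _root_.map_inv, ← mk_inv_single]; rfl
  have hj : θ (mk [(Sum.inr j, δ)]) = mk [(Sum.inr j, δ)] := by
    apply fix_mk
    intro x hx
    apply t1
    simp only [List.mem_singleton] at hx
    subst hx
    simp
  have hone : (mk [] : FreeGroup (L ⊕ B)) = 1 := rfl
  have hA : (mk [(Sum.inl k, true)] : FreeGroup (L ⊕ B)) = of (Sum.inl k) := rfl
  have hA' : (mk [(Sum.inl k, false)] : FreeGroup (L ⊕ B)) = (of (Sum.inl k))⁻¹ := by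
    rw [of, FreeGroup.inv_mk]; rfl
  refine ⟨θ, ⟨?_, ?_, ?_, ?_, ?_, ?_, ?_, ?_⟩⟩
  · intro x hx
    apply t1
    rintro rfl
    have := hx k rfl
    simp [Piece.word, cnt_cons] at this
  · intro x hx
    apply t2
    rintro rfl
    have := hx k rfl
    simp [Piece.word, cnt_cons] at this
  · rw [mk_app, mk_cons' (Sum.inl k, s), mk_cons' (Sum.inr j, δ), mk_cons' (Sum.inl k, !s)]
    simp only [_root_.map_mul, t3, t3', hj, fx u hu, fx u' hu', ← inv_mk', Piece.word]
    rw [mk_cons' (Sum.inl k, true), mk_cons' (Sum.inr j, δ) [(Sum.inl k, false)], mk_app, hA, hA', hone]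
    group
  · apply allPre_append
    · intro V V' hV
      refine ⟨[], V, V' ++ u', by simp [hV], by simp, by simp, ?_⟩
      rw [List.nil_append, fx V (sub V V' (hV ▸ hu)).1]
      exact (one_mul _).symm
    · apply allPre_cons
      · refine ⟨[], u, u', rfl, by simp, by simp, ?_⟩
        rw [List.nil_append, fx u hu]
        exact (one_mul _).symm
      · apply allPre_cons
        · refine ⟨[(Sum.inl k, true)], [], u ++ u', rfl, by simp, ?_, ?_⟩
          · intro x hx k' _
            simp only [List.mem_singleton] at hx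
            subst hx
            simp [Piece.word, cnt_cons]
          · simp only [List.nil_append, mk_app, _root_.map_mul, fx u hu, t3, ← inv_mk', hA, hone]
            group
        · apply allPre_cons
          · refine ⟨[(Sum.inl k, true), (Sum.inr j, δ)], [], u ++ u', rfl, by simp, ?_, ?_⟩
            · intro x hx k' hk'
              simp only [List.mem_cons, List.not_mem_nil, or_false] at hx
              rcases hx with rfl | rfl
              · simp [Piece.word, cnt_cons]
              · simp at hk'
            · rw [mk_cons' (Sum.inl k, true)]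
              simp only [List.nil_append, mk_app, _root_.map_mul, fx u hu, t3, hj, ← inv_mk', hA, hone]
              group
          · intro V V' hV
            refine ⟨[(Sum.inl k, true), (Sum.inr j, δ), (Sum.inl k, false)], u ++ V, V', ?_,
              by simp, ?_, ?_⟩
            · rw [hV]; simp
            · intro x hx k' hk'
              simp only [List.mem_cons, List.not_mem_nil, or_false] at hx
              rcases hx with rfl | rfl | rfl
              · simp [Piece.word, cnt_cons]
              · simp at hk'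
              · simp [Piece.word, cnt_cons]
            · have h1 := sub V V' (hV ▸ hu')
              rw [mk_cons' (Sum.inl k, true), mk_cons' (Sum.inr j, δ)]
              simp only [List.nil_append, mk_app, _root_.map_mul, fx u hu, t3, t3', hj, fx V h1.1,
                ← inv_mk', hA, hA', hone]
              group
  · intro x
    simp only [Piece.word, cnt_append, cnt_cons, cnt_nil]
    omega
  · simp [Piece.word]
    omega
  · intro k' hk'
    have : k' = k := by
      by_contra hne
      apply hk'
      simp [Piece.word, cnt_cons, cnt_nil, Ne.symm hne]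
    subst this
    simp only [cnt_append, hu, hu']
  · intro k' hk'
    have : k' = k := by
      by_contra hne
      apply hk'
      simp [Piece.word, cnt_cons, cnt_nil, Ne.symm hne]
    subst this
    refine ⟨u ++ [(Sum.inl k', s)], ?_, ?_, ?_⟩
    · simp
      omega
    · rw [t4]
      simp only [mk_app, ← inv_mk', hone]
      group
    · intro x hx
      rw [cnt_ne_zero]
      simp only [List.mem_append, List.mem_singleton] at hx
      rcases hx with hx | hx
      · exact ⟨x, by simp [hx], rfl⟩
      · exact ⟨x, by simp [hx], rfl⟩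

/-- The handle move. -/
theorem stepH (k l : L) (hkl : k ≠ l) (s t : Bool) (u y z w u' : List (Ltr L B))
    (hk : cnt (u ++ (Sum.inl k, s) :: (y ++ (Sum.inl l, t) :: (z ++ (Sum.inl k, !s) ::
      (w ++ (Sum.inl l, !t) :: u')))) (Sum.inl k) = 2)
    (hl : cnt (u ++ (Sum.inl k, s) :: (y ++ (Sum.inl l, t) :: (z ++ (Sum.inl k, !s) ::
      (w ++ (Sum.inl l, !t) :: u')))) (Sum.inl l) = 2) :
    ∃ θ, Step (u ++ (Sum.inl k, s) :: (y ++ (Sum.inl l, t) :: (z ++ (Sum.inl k, !s) ::
      (w ++ (Sum.inl l, !t) :: u')))) (u ++ (w ++ (z ++ (y ++ u')))) (.com k l) θ := by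
  have hlk : ((Sum.inl l : L ⊕ B) = Sum.inl k) = False := by
    simp only [Sum.inl.injEq, eq_iff_iff, iff_false]; exact hkl.symm
  have hkl' : ((Sum.inl k : L ⊕ B) = Sum.inl l) = False := by
    simp only [Sum.inl.injEq, eq_iff_iff, iff_false]; exact hkl
  have hc : cnt u (Sum.inl k) = 0 ∧ cnt y (Sum.inl k) = 0 ∧ cnt z (Sum.inl k) = 0 ∧
      cnt w (Sum.inl k) = 0 ∧ cnt u' (Sum.inl k) = 0 := by
    simp only [cnt_append, cnt_cons, if_true, hlk, if_false] at hk
    omega
  have hd : cnt u (Sum.inl l) = 0 ∧ cnt y (Sum.inl l) = 0 ∧ cnt z (Sum.inl l) = 0 ∧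
      cnt w (Sum.inl l) = 0 ∧ cnt u' (Sum.inl l) = 0 := by
    simp only [cnt_append, cnt_cons, if_true, hkl', if_false] at hl
    omega
  obtain ⟨hu, hy, hz, hw, hu'⟩ := hc
  obtain ⟨gu, gy, gz, gw, gu'⟩ := hd
  obtain ⟨θ₁, t1, t2, t3, t4⟩ := tw (B := B) k s (invRev u) (u ++ (w ++ z))
    (not_mem_of_cnt (by rw [cnt_invRev, hu]))
    (not_mem_of_cnt (by rw [cnt_append, cnt_append, hu, hw, hz]))
  obtain ⟨θ₂, r1, r2, r3, r4⟩ := tw (B := B) l t (invRev (u ++ (w ++ (z ++ y)))) (u ++ w)
    (not_mem_of_cnt (by rw [cnt_invRev, cnt_append, cnt_append, cnt_append, gu, gw, gz, gy]))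
    (not_mem_of_cnt (by rw [cnt_append, gu, gw]))
  have fx1 : ∀ V : List (Ltr L B), cnt V (Sum.inl k) = 0 → θ₁ (mk V) = mk V := fun V hV =>
    fix_mk θ₁ V fun x hx => t1 _ (not_mem_of_cnt hV x hx)
  have fx2 : ∀ V : List (Ltr L B), cnt V (Sum.inl l) = 0 → θ₂ (mk V) = mk V := fun V hV =>
    fix_mk θ₂ V fun x hx => r1 _ (not_mem_of_cnt hV x hx)
  have fx1' : ∀ V : List (Ltr L B), cnt V (Sum.inl k) = 0 → θ₁.symm (mk V) = mk V := fun V hV =>
    fix_mk θ₁.symm V fun x hx => t2 _ (not_mem_of_cnt hV x hx)
  set θ := θ₁.trans θ₂ with hθ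
  have hθa : ∀ x, θ x = θ₂ (θ₁ x) := fun x => rfl
  have hθs : ∀ x, θ.symm x = θ₁.symm (θ₂.symm x) := fun x => rfl
  have fx : ∀ V : List (Ltr L B), cnt V (Sum.inl k) = 0 → cnt V (Sum.inl l) = 0 →
      θ (mk V) = mk V := fun V hV hV' => by rw [hθa, fx1 V hV, fx2 V hV']
  have sub : ∀ (x : L ⊕ B) (V V' : List (Ltr L B)), cnt (V ++ V') x = 0 → cnt V x = 0 ∧
      cnt V' x = 0 := by
    intro x V V' hV
    rw [cnt_append] at hV
    omega
  have hone : (mk [] : FreeGroup (L ⊕ B)) = 1 := rfl
  have hA : (mk [(Sum.inl k, true)] : FreeGroup (L ⊕ B)) = of (Sum.inl k) := rfl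
  have hA' : (mk [(Sum.inl k, false)] : FreeGroup (L ⊕ B)) = (of (Sum.inl k))⁻¹ := by
    rw [of, FreeGroup.inv_mk]; rfl
  have hB : (mk [(Sum.inl l, true)] : FreeGroup (L ⊕ B)) = of (Sum.inl l) := rfl
  have hB' : (mk [(Sum.inl l, false)] : FreeGroup (L ⊕ B)) = (of (Sum.inl l))⁻¹ := by
    rw [of, FreeGroup.inv_mk]; rfl
  have a1 : θ (mk [(Sum.inl k, s)]) = (mk u)⁻¹ * of (Sum.inl k) * (mk u * mk w * mk z) := by
    rw [hθa, t3, _root_.map_mul, _root_.map_mul, fx2 (invRev u) (by rw [cnt_invRev, gu]),
      r1 (Sum.inl k) (by rw [ne_eq, hkl']; simp), fx2 (u ++ (w ++ z)) (by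
        rw [cnt_append, cnt_append, gu, gw, gz]), ← inv_mk', mk_app, mk_app]
    group
  have a2 : θ (mk [(Sum.inl k, !s)]) = ((mk u)⁻¹ * of (Sum.inl k) * (mk u * mk w * mk z))⁻¹ := by
    rw [← a1, ← _root_.map_inv, ← mk_inv_single]; rfl
  have b1 : θ (mk [(Sum.inl l, t)]) =
      (mk u * mk w * mk z * mk y)⁻¹ * of (Sum.inl l) * (mk u * mk w) := by
    rw [hθa, fx1 [(Sum.inl l, t)] (by simp [cnt_cons, cnt_nil, hkl.symm]), r3, ← inv_mk', mk_app,
      mk_app, mk_app, mk_app]
    group
  have b2 : θ (mk [(Sum.inl l, !t)]) =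
      ((mk u * mk w * mk z * mk y)⁻¹ * of (Sum.inl l) * (mk u * mk w))⁻¹ := by
    rw [← b1, ← _root_.map_inv, ← mk_inv_single]; rfl
  have cw : ∀ x, cnt (Piece.com k l : Piece L B).word x =
      (if Sum.inl k = x then 2 else 0) + (if Sum.inl l = x then 2 else 0) := by
    intro x
    simp only [Piece.word, cnt_cons, cnt_nil]
    split_ifs <;> rfl
  have hk0 : cnt (Piece.com k l : Piece L B).word (Sum.inl k) ≠ 0 := by
    rw [cw, if_pos rfl]; omega
  have hl0 : cnt (Piece.com k l : Piece L B).word (Sum.inl l) ≠ 0 := by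
    rw [cw, if_pos rfl]; omega
  refine ⟨θ, ⟨?_, ?_, ?_, ?_, ?_, ?_, ?_, ?_⟩⟩
  · intro x hx
    rw [hθa, t1 x, r1 x]
    · rintro rfl; exact hl0 (hx l rfl)
    · rintro rfl; exact hk0 (hx k rfl)
  · intro x hx
    rw [hθs, r2 x, t2 x]
    · rintro rfl; exact hk0 (hx k rfl)
    · rintro rfl; exact hl0 (hx l rfl)
  · rw [mk_app, mk_cons' (Sum.inl k, s), mk_app, mk_cons' (Sum.inl l, t), mk_app,
      mk_cons' (Sum.inl k, !s), mk_app, mk_cons' (Sum.inl l, !t)]
    simp only [_root_.map_mul, a1, a2, b1, b2, fx u hu gu, fx u' hu' gu', fx y hy gy, fx z hz gz,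
      fx w hw gw, Piece.word]
    rw [mk_cons' (Sum.inl k, true), mk_cons' (Sum.inl l, true), mk_cons' (Sum.inl k, false),
      mk_app, mk_app, mk_app, mk_app, hA, hA', hB, hB']
    group
  · apply allPre_append
    · intro V V' hV
      refine ⟨[], V, V' ++ (w ++ (z ++ (y ++ u'))), by simp [hV], by simp, by simp, ?_⟩
      rw [List.nil_append, fx V (sub _ V V' (hV ▸ hu)).1 (sub _ V V' (hV ▸ gu)).1]
      exact (one_mul _).symm
    · apply allPre_cons
      · refine ⟨[], u, w ++ (z ++ (y ++ u')), rfl, by simp, by simp, ?_⟩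
        rw [List.nil_append, fx u hu gu]
        exact (one_mul _).symm
      · apply allPre_append
        · intro V V' hV
          refine ⟨[(Sum.inl k, true)], u ++ (w ++ (z ++ V)), V' ++ u', ?_, by simp, ?_, ?_⟩
          · rw [hV]; simp
          · intro x hx k' _
            simp only [List.mem_singleton] at hx
            subst hx
            exact hk0
          · simp only [List.nil_append, mk_app, _root_.map_mul, fx u hu gu, a1, hA,
              fx V (sub _ V V' (hV ▸ hy)).1 (sub _ V V' (hV ▸ gy)).1]
            group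
        · apply allPre_cons
          · refine ⟨[(Sum.inl k, true)], u ++ (w ++ (z ++ y)), u', ?_, by simp, ?_, ?_⟩
            · simp
            · intro x hx k' _
              simp only [List.mem_singleton] at hx
              subst hx
              exact hk0
            · simp only [List.nil_append, mk_app, _root_.map_mul, fx u hu gu, a1, hA,
                fx y hy gy]
              group
          · apply allPre_append
            · intro V V' hV
              refine ⟨[(Sum.inl k, true), (Sum.inl l, true)], u ++ (w ++ V), V' ++ (y ++ u'), ?_,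
                by simp, ?_, ?_⟩
              · rw [hV]; simp
              · intro x hx k' _
                simp only [List.mem_cons, List.not_mem_nil, or_false] at hx
                rcases hx with rfl | rfl
                · exact hk0
                · exact hl0
              · rw [mk_cons' (Sum.inl k, true)]
                simp only [List.nil_append, mk_app, _root_.map_mul, fx u hu gu, a1, b1, hA, hB,
                  fx V (sub _ V V' (hV ▸ hz)).1 (sub _ V V' (hV ▸ gz)).1, fx y hy gy]
                group
            · apply allPre_cons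
              · refine ⟨[(Sum.inl k, true), (Sum.inl l, true)], u ++ (w ++ z), y ++ u', ?_,
                  by simp, ?_, ?_⟩
                · simp
                · intro x hx k' _
                  simp only [List.mem_cons, List.not_mem_nil, or_false] at hx
                  rcases hx with rfl | rfl
                  · exact hk0
                  · exact hl0
                · rw [mk_cons' (Sum.inl k, true)]
                  simp only [List.nil_append, mk_app, _root_.map_mul, fx u hu gu, a1, b1, hA, hB,
                    fx z hz gz, fx y hy gy]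
                  group
              · apply allPre_append
                · intro V V' hV
                  refine ⟨[(Sum.inl k, true), (Sum.inl l, true), (Sum.inl k, false)], u ++ V,
                    V' ++ (z ++ (y ++ u')), ?_, by simp, ?_, ?_⟩
                  · rw [hV]; simp
                  · intro x hx k' _
                    simp only [List.mem_cons, List.not_mem_nil, or_false] at hx
                    rcases hx with rfl | rfl | rfl
                    · exact hk0
                    · exact hl0
                    · exact hk0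
                  · rw [mk_cons' (Sum.inl k, true), mk_cons' (Sum.inl l, true)]
                    simp only [List.nil_append, mk_app, _root_.map_mul, fx u hu gu, a1, a2, b1, hA,
                      hA', hB, fx V (sub _ V V' (hV ▸ hw)).1 (sub _ V V' (hV ▸ gw)).1, fx y hy gy,
                      fx z hz gz]
                    group
                · apply allPre_cons
                  · refine ⟨[(Sum.inl k, true), (Sum.inl l, true), (Sum.inl k, false)], u ++ w,
                      z ++ (y ++ u'), ?_, by simp, ?_, ?_⟩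
                    · simp
                    · intro x hx k' _
                      simp only [List.mem_cons, List.not_mem_nil, or_false] at hx
                      rcases hx with rfl | rfl | rfl
                      · exact hk0
                      · exact hl0
                      · exact hk0
                    · rw [mk_cons' (Sum.inl k, true), mk_cons' (Sum.inl l, true)]
                      simp only [List.nil_append, mk_app, _root_.map_mul, fx u hu gu, a1, a2, b1, hA,
                        hA', hB, fx w hw gw, fx y hy gy, fx z hz gz]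
                      group
                  · intro V V' hV
                    refine ⟨[(Sum.inl k, true), (Sum.inl l, true), (Sum.inl k, false),
                      (Sum.inl l, false)], u ++ (w ++ (z ++ (y ++ V))), V', ?_, by simp, ?_, ?_⟩
                    · rw [hV]; simp
                    · intro x hx k' _
                      simp only [List.mem_cons, List.not_mem_nil, or_false] at hx
                      rcases hx with rfl | rfl | rfl | rfl
                      · exact hk0
                      · exact hl0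
                      · exact hk0
                      · exact hl0
                    · rw [mk_cons' (Sum.inl k, true), mk_cons' (Sum.inl l, true),
                        mk_cons' (Sum.inl k, false)]
                      simp only [List.nil_append, mk_app, _root_.map_mul, fx u hu gu, a1, a2, b1, b2,
                        hA, hA', hB, hB', fx w hw gw, fx y hy gy, fx z hz gz,
                        fx V (sub _ V V' (hV ▸ hu')).1 (sub _ V V' (hV ▸ gu')).1]
                      group
  · intro x
    simp only [Piece.word, cnt_append, cnt_cons, cnt_nil]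
    omega
  · simp [Piece.word]
    omega
  · intro k' hk'
    rw [cw] at hk'
    have : k' = k ∨ k' = l := by
      by_contra hne
      push Not at hne
      apply hk'
      rw [if_neg (by simpa using Ne.symm hne.1), if_neg (by simpa using Ne.symm hne.2)]
    rcases this with rfl | rfl
    · simp only [cnt_append, hu, hw, hz, hy, hu']
    · simp only [cnt_append, gu, gw, gz, gy, gu']
  · intro k' hk'
    rw [cw] at hk'
    have : k' = k ∨ k' = l := by
      by_contra hne
      push Not at hne
      apply hk'
      rw [if_neg (by simpa using Ne.symm hne.1), if_neg (by simpa using Ne.symm hne.2)]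
    have mem : ∀ V : List (Ltr L B), ∀ x, cnt V x = cnt (invRev V) x := fun V x =>
      (cnt_invRev V x).symm
    rcases this with rfl | rfl
    · refine ⟨u ++ [(Sum.inl k', s)] ++ (invRev z ++ (invRev w ++ invRev u)), ?_, ?_, ?_⟩
      · simp [invRev]
        omega
      · rw [hθs, r2 (Sum.inl k') (by rw [ne_eq, hkl']; simp), t4]
        simp only [mk_app, ← inv_mk']
        group
      · intro x hx
        simp only [List.mem_append, List.mem_singleton] at hx
        have hh : cnt u x.1 ≠ 0 ∨ Sum.inl k' = x.1 ∨ cnt z x.1 ≠ 0 ∨ cnt w x.1 ≠ 0 := by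
          rcases hx with (hx | hx) | hx | hx | hx
          · exact Or.inl (cnt_ne_zero.2 ⟨x, hx, rfl⟩)
          · right; left; rw [hx]
          · right; right; left; rw [mem]; exact cnt_ne_zero.2 ⟨x, hx, rfl⟩
          · right; right; right; rw [mem]; exact cnt_ne_zero.2 ⟨x, hx, rfl⟩
          · left; rw [mem]; exact cnt_ne_zero.2 ⟨x, hx, rfl⟩
        simp only [cnt_append, cnt_cons]
        rcases hh with hh | hh | hh | hh
        · omega
        · rw [if_pos hh]; omega
        · omega
        · omega
    · refine ⟨u ++ (w ++ (z ++ y)) ++ [(Sum.inl k', t)] ++ (invRev w ++ invRev u), ?_, ?_, ?_⟩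
      · simp [invRev]
        omega
      · rw [hθs, r4, _root_.map_mul, _root_.map_mul, _root_.map_inv, _root_.map_inv,
          fx1' (invRev (u ++ (w ++ (z ++ y)))) (by
            rw [cnt_invRev, cnt_append, cnt_append, cnt_append, hu, hw, hz, hy]),
          fx1' (u ++ w) (by rw [cnt_append, hu, hw]),
          fx1' [(Sum.inl k', t)] (by simp [cnt_cons, cnt_nil, hkl.symm])]
        simp only [mk_app, ← inv_mk']
        group
      · intro x hx
        simp only [List.mem_append, List.mem_singleton] at hx
        have hh : cnt u x.1 ≠ 0 ∨ Sum.inl k' = x.1 ∨ cnt z x.1 ≠ 0 ∨ cnt w x.1 ≠ 0 ∨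
            cnt y x.1 ≠ 0 := by
          rcases hx with ((hx | hx | hx | hx) | hx) | hx | hx
          · exact Or.inl (cnt_ne_zero.2 ⟨x, hx, rfl⟩)
          · right; right; right; left; exact cnt_ne_zero.2 ⟨x, hx, rfl⟩
          · right; right; left; exact cnt_ne_zero.2 ⟨x, hx, rfl⟩
          · right; right; right; right; exact cnt_ne_zero.2 ⟨x, hx, rfl⟩
          · right; left; rw [hx]
          · right; right; right; left; rw [mem]; exact cnt_ne_zero.2 ⟨x, hx, rfl⟩
          · left; rw [mem]; exact cnt_ne_zero.2 ⟨x, hx, rfl⟩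
        simp only [cnt_append, cnt_cons]
        rcases hh with hh | hh | hh | hh | hh
        · omega
        · rw [if_pos hh]; omega
        · omega
        · omega
        · omega

end EX

end Pool.Agent.Helper35_WH
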